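import Mathlib

/-! Ordered sets with chain cutsets: the relations `U` and `D`. -/

namespace Pool.Agent.P.MP_79bc23_co

universe u

variable {P : Type u} [PartialOrder P] {K : P → Set P} {x y y' v a b c : P} {C : Set P}

/-- A set of pairwise comparable elements. -/
def Ch (C : Set P) : Prop := ∀ a ∈ C, ∀ b ∈ C, a ≤ b ∨ b ≤ a

/-- `K x` is a chain cutset for `x`, for every `x`. -/
structure Sys (K : P → Set P) : Prop where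
  nle : ∀ {x k}, k ∈ K x → ¬ k ≤ x
  nge : ∀ {x k}, k ∈ K x → ¬ x ≤ k
  ch : ∀ {x k k'}, k ∈ K x → k' ∈ K x → k ≤ k' ∨ k' ≤ k
  cut : ∀ x C, Ch C → ∀ c ∈ C, ¬ c ≤ x → ¬ x ≤ c → ∃ k ∈ K x, ∀ c ∈ C, k ≤ c ∨ c ≤ k

/-- `K x` meets every chain going up from `y`. -/
def U (K : P → Set P) (x y : P) : Prop :=
  ∀ C, Ch C → (∀ c ∈ C, y ≤ c) → ∃ k ∈ K x, y ≤ k ∧ ∀ c ∈ C, k ≤ c ∨ c ≤ k

/-- `K x` meets every chain going down from `y`. -/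
def D (K : P → Set P) (x y : P) : Prop := U (P := Pᵒᵈ) K x y

lemma Ch.dual (h : Ch C) : Ch (P := Pᵒᵈ) C := fun a ha b hb => (h a ha b hb).symm

lemma Sys.dual (h : Sys K) : Sys (P := Pᵒᵈ) K where
  nle := h.nge
  nge := h.nle
  ch := fun h1 h2 => (h.ch h1 h2).symm
  cut := fun x C hC c hc h1 h2 =>
    let ⟨k, hk, h3⟩ := h.cut x C (Ch.dual (P := Pᵒᵈ) hC) c hc h2 h1
    ⟨k, hk, fun c hc => (h3 c hc).symm⟩

lemma ch1 (x : P) : Ch {x} := by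
  rintro _ rfl _ rfl
  exact .inl le_rfl

lemma ch3 (h1 : a ≤ b) (h2 : b ≤ c) : Ch {a, b, c} := by
  have := h1.trans h2
  rintro _ (rfl | rfl | rfl) _ (rfl | rfl | rfl) <;> simp [*]

lemma Sys.cut3 (h : Sys K) (h1 : a ≤ b) (h2 : b ≤ c) (h3 : ¬ b ≤ x) (h4 : ¬ x ≤ b) :
    ∃ k ∈ K x, (k ≤ a ∨ a ≤ k) ∧ (k ≤ c ∨ c ≤ k) :=
  let ⟨k, hk, h5⟩ := h.cut x _ (ch3 h1 h2) b (by simp) h3 h4
  ⟨k, hk, h5 a (by simp), h5 c (by simp)⟩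

lemma maxIn (S C : Set P) (hS : C ⊆ S) (hC : Ch C) : ∃ M, C ⊆ M ∧ M ⊆ S ∧ Ch M ∧
    ∀ t ∈ S, (∀ c ∈ M, t ≤ c ∨ c ≤ t) → t ∈ M := by
  obtain ⟨M, h1, h2⟩ := zorn_subset_nonempty {M | M ⊆ S ∧ Ch M} (fun F hF hc _ =>
    ⟨⋃₀ F, ⟨Set.sUnion_subset fun M hM => (hF hM).1, by
      rintro a ⟨A, hA, ha⟩ b ⟨B, hB, hb⟩
      rcases hc.total hA hB with h | h
      · exact (hF hB).2 a (h ha) b hb
      · exact (hF hA).2 a ha b (h hb)⟩, fun M hM => Set.subset_sUnion_of_mem hM⟩) C ⟨hS, hC⟩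
  refine ⟨M, h1, h2.prop.1, h2.prop.2, fun t ht h => ?_⟩
  refine h2.2 (y := insert t M) ⟨Set.insert_subset ht h2.prop.1, ?_⟩ (Set.subset_insert _ _)
    (Set.mem_insert _ _)
  rintro a (rfl | ha) b (rfl | hb)
  exacts [.inl le_rfl, h b hb, (h a ha).symm, h2.prop.2 a ha b hb]

lemma Sys.dich (h : Sys K) (h1 : ¬ x ≤ y) (h2 : ¬ y ≤ x) : U K x y ∨ D K x y := by
  by_contra h3
  simp only [D, U, not_or, not_forall] at h3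
  obtain ⟨⟨A, hA, hA', hA''⟩, B, hB, hB', hB''⟩ := h3
  have hB1 : ∀ c : P, c ∈ B → c ≤ y := hB'
  obtain ⟨k, hk, h4⟩ := h.cut x (insert y (A ∪ B)) (by
    rintro a (rfl | ha | ha) b (rfl | hb | hb)
    exacts [.inl le_rfl, .inl (hA' b hb), .inr (hB1 b hb), .inr (hA' a ha), hA a ha b hb,
      .inr ((hB1 b hb).trans (hA' a ha)), .inl (hB1 a ha), .inl ((hB1 a ha).trans (hA' b hb)),
      hB b hb a ha]) y (Set.mem_insert _ _) h2 h1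
  rcases h4 y (Set.mem_insert _ _) with h5 | h5
  · exact hB'' ⟨k, hk, h5, fun c hc => (h4 c (.inr (.inr hc))).symm⟩
  · exact hA'' ⟨k, hk, h5, fun c hc => h4 c (.inr (.inl hc))⟩

lemma U.two (h : U K x y) (hc : y ≤ c) : ∃ k ∈ K x, y ≤ k ∧ (k ≤ c ∨ c ≤ k) :=
  let ⟨k, hk, h1, h2⟩ := h _ (ch1 c) (by rintro _ rfl; exact hc)
  ⟨k, hk, h1, h2 c rfl⟩

lemma U.zero (h : U K x y) : ∃ k ∈ K x, y ≤ k :=
  let ⟨k, hk, h1, _⟩ := h.two le_rfl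
  ⟨k, hk, h1⟩

lemma D.two (h : D K x y) (hc : c ≤ y) : ∃ k ∈ K x, k ≤ y ∧ (c ≤ k ∨ k ≤ c) :=
  U.two (P := Pᵒᵈ) h hc

lemma D.zero (h : D K x y) : ∃ k ∈ K x, k ≤ y := U.zero (P := Pᵒᵈ) h

namespace Sys

variable (h : Sys K)
include h

lemma u1 (hu : U K x y) (h1 : y ≤ v) (h2 : x ≤ v) : ∃ k ∈ K x, y ≤ k ∧ k ≤ v :=
  let ⟨k, hk, h3, h4⟩ := hu.two h1
  ⟨k, hk, h3, h4.resolve_right fun h5 => h.nge hk (h2.trans h5)⟩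

lemma u3 (hu : U K x y) (hC : Ch C) (h1 : ∀ c ∈ C, y ≤ c) (h2 : ∀ c ∈ C, x ≤ c) :
    ∃ k ∈ K x, y ≤ k ∧ ∀ c ∈ C, k ≤ c :=
  let ⟨k, hk, h3, h4⟩ := hu C hC h1
  ⟨k, hk, h3, fun c hc => (h4 c hc).resolve_right fun h5 => h.nge hk ((h2 c hc).trans h5)⟩

lemma u2 (hu : U K x y) (hu' : U K x y') : ∃ v ∈ K x, y ≤ v ∧ y' ≤ v := by
  obtain ⟨k, hk, h1⟩ := hu.zero
  obtain ⟨k', hk', h2⟩ := hu'.zero
  rcases h.ch hk hk' with h3 | h3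
  exacts [⟨k', hk', h1.trans h3, h2⟩, ⟨k, hk, h1, h2.trans h3⟩]

lemma ub (hu : U K a b) (hx : x ∈ K a) (h1 : ¬ b ≤ x) (h2 : a ≤ v) (h3 : b ≤ v) : x ≤ v :=
  let ⟨_, hk, h4, h5⟩ := h.u1 hu h3 h2
  ((h.ch hx hk).resolve_right fun h6 => h1 (h4.trans h6)).trans h5

lemma fu (hu : U K a b) (hx : x ∈ K a) (h1 : ¬ b ≤ x) (h2 : U K x a) (h3 : U K x b) : False :=
  let ⟨_, hv, h4, h5⟩ := h.u2 h2 h3
  h.nge hv (h.ub hu hx h1 h4 h5)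

lemma d1 (hu : D K x y) (h1 : v ≤ y) (h2 : v ≤ x) : ∃ k ∈ K x, k ≤ y ∧ v ≤ k :=
  h.dual.u1 hu h1 h2

lemma d3 (hu : D K x y) (hC : Ch C) (h1 : ∀ c ∈ C, c ≤ y) (h2 : ∀ c ∈ C, c ≤ x) :
    ∃ k ∈ K x, k ≤ y ∧ ∀ c ∈ C, c ≤ k :=
  h.dual.u3 hu hC.dual h1 h2

lemma d2 (hu : D K x y) (hu' : D K x y') : ∃ v ∈ K x, v ≤ y ∧ v ≤ y' := h.dual.u2 hu hu'

lemma lb (hu : D K a b) (hx : x ∈ K a) (h1 : ¬ x ≤ b) (h2 : v ≤ a) (h3 : v ≤ b) : v ≤ x :=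
  h.dual.ub hu hx h1 h2 h3

lemma fd (hu : D K a b) (hx : x ∈ K a) (h1 : ¬ x ≤ b) (h2 : D K x a) (h3 : D K x b) : False :=
  h.dual.fu hu hx h1 h2 h3

lemma tri (ab : U K a b) (ac : U K a c) (ba : U K b a) (bc : U K b c) (ca : U K c a)
    (cb : U K c b) : False := by
  obtain ⟨s, hs, h1, h2⟩ := h.u2 ca cb
  obtain ⟨t, ht, h3, h4⟩ := h.u2 ba bc
  obtain ⟨k, hk, h5, h6⟩ := h.u1 ab h2 h1
  obtain ⟨k', hk', h7, h8⟩ := h.u1 ac h4 h3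
  rcases h.ch hk hk' with h9 | h9
  exacts [h.nge ht (h5.trans (h9.trans h8)), h.nge hs (h7.trans (h9.trans h6))]

/-- No chain passes from below `q` to above `p` around `r`. -/
lemma nest {p q r z w : P} (pq : ¬ p ≤ q) (rp : D K r p) (rq : U K r q) (nr : ¬ r ≤ q)
    (bu : ∀ v, p ≤ v → q ≤ v → r ≤ v) (bd : ∀ v, v ≤ p → v ≤ q → v ≤ r) (zw : z ≤ w)
    (zq : z ≤ q) (pw : p ≤ w) (zr : ¬ z ≤ r) (rw : ¬ r ≤ w) : False := by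
  obtain ⟨M, m1, m2, m3, m4⟩ := maxIn {s | (z ≤ s ∧ s ≤ q) ∨ (p ≤ s ∧ s ≤ w)} {z, z, w} (by
    rintro _ (rfl | rfl | rfl)
    exacts [.inl ⟨le_rfl, zq⟩, .inl ⟨le_rfl, zq⟩, .inr ⟨pw, le_rfl⟩]) (ch3 le_rfl zw)
  have hz : z ∈ M := m1 (by simp)
  have hw : w ∈ M := m1 (by simp)
  obtain ⟨k, hk, hc⟩ := h.cut r M m3 z hz zr fun h1 => nr (h1.trans zq)
  obtain ⟨d, hd, dp⟩ := rp.zero
  obtain ⟨u, hu, qu⟩ := rq.zero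
  have kq : ¬ k ≤ q := fun h1 => by
    rcases h.ch hk hd with h2 | h2
    exacts [h.nle hk (bd _ (h2.trans dp) h1), h.nle hd (bd _ dp (h2.trans h1))]
  have pk : ¬ p ≤ k := fun h1 => by
    rcases h.ch hk hu with h2 | h2
    exacts [h.nge hu (bu _ (h1.trans h2) qu), h.nge hk (bu _ h1 (qu.trans h2))]
  have hL : ∀ c ∈ M, c ≤ q → c ≤ k := fun c h1 h2 =>
    (hc c h1).resolve_left fun h3 => kq (h3.trans h2)
  have hH : ∀ c ∈ M, p ≤ c → k ≤ c := fun c h1 h2 =>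
    (hc c h1).resolve_right fun h3 => pk (h2.trans h3)
  have kp : ¬ k ≤ p := fun h1 => zr (bd _ ((hL z hz zq).trans h1) zq)
  have qk : ¬ q ≤ k := fun h1 => rw (bu _ pw (h1.trans (hH w hw pw)))
  have uu : U K k p → ¬ U K k q := fun h1 h2 =>
    let ⟨_, hv, h3, h4⟩ := h.u2 h1 h2
    h.nge hv (h.ub rq hk qk (bu _ h3 h4) h4)
  have dd : D K k p → ¬ D K k q := fun h1 h2 =>
    let ⟨_, hv, h3, h4⟩ := h.d2 h1 h2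
    h.nle hv (h.lb rp hk kp (bd _ h3 h4) h3)
  have up : U K k p := (h.dich kp pk).resolve_right fun h1 =>
    h.fu rq hk qk ((h.dich (h.nle hk) (h.nge hk)).resolve_right fun h2 => h.fd rp hk kp h2 h1)
      ((h.dich kq qk).resolve_right (dd h1))
  have dq : D K k q := (h.dich kq qk).resolve_left (uu up)
  obtain ⟨s, hs, s1, s2⟩ := h.u3 up (C := {c ∈ M | p ≤ c})
    (fun a ha b hb => m3 a ha.1 b hb.1) (fun _ h1 => h1.2) fun c h1 => hH c h1.1 h1.2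
  obtain ⟨t, ht, t1, t2⟩ := h.d3 dq (C := {c ∈ M | c ≤ q})
    (fun a ha b hb => m3 a ha.1 b hb.1) (fun _ h1 => h1.2) fun c h1 => hL c h1.1 h1.2
  have ts : t ≤ s := (h.ch ht hs).resolve_right fun h1 => pq (s1.trans (h1.trans t1))
  refine h.nge hs (hH s (m4 s (.inr ⟨s1, s2 w ⟨hw, pw⟩⟩) fun c h1 => ?_) s1)
  rcases m2 h1 with h2 | h2
  exacts [.inr ((t2 c ⟨h1, h2.2⟩).trans ts), .inl (s2 c ⟨h1, h2.1⟩)]

end Sys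

end Pool.Agent.P.MP_79bc23_co
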