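import Pool.Agent.P.MP_79bc23_co.Basic

/-! The zigzag argument: four points with simultaneous upper and lower bounds. -/

namespace Pool.Agent.P.MP_79bc23_co

universe u

variable {P : Type u} [PartialOrder P] {K : P → Set P}

theorem Sys.helix (h : Sys K) {a b p q : P} (pq : ¬ p ≤ q) (pa : ¬ p ≤ a)
    (pb : ¬ p ≤ b) (qa : ¬ q ≤ a) (qb : ¬ q ≤ b) (bp : U K b p) (upq : U K p q)
    (dpa : D K p a) (dpb : D K p b)
    (hu : ∀ v, a ≤ v → b ≤ v ∨ p ≤ v ∨ q ≤ v → b ≤ v ∧ p ≤ v) (hu' : ∀ v, b ≤ v → q ≤ v → p ≤ v)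
    (hb : ∀ k ∈ K b, p ≤ k → q ≤ k)
    (hd : ∀ z, z ≤ q → z ≤ a ∨ z ≤ b ∨ z ≤ p → z ≤ p ∧ z ≤ a) (hd' : ∀ z, z ≤ p → z ≤ b → z ≤ a)
    (hp : ∀ k ∈ K p, k ≤ a → k ≤ b) : False := by
  obtain ⟨V, v1, v2, v3, v4⟩ := maxIn {v | p ≤ v ∧ q ≤ v} {k ∈ K b | p ≤ k}
    (fun k hk => ⟨hk.2, hb k hk.1 hk.2⟩) fun k hk k' hk' => h.ch hk.1 hk'.1
  obtain ⟨B, hB⟩ : ∃ B : P → Prop, ∀ y, B y ↔ ∀ v ∈ V, y ≤ v := ⟨_, fun _ => Iff.rfl⟩
  have B0 : ∀ {y y'}, B y → y' ≤ y → B y' := fun hy h1 =>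
    (hB _).2 fun v hv => h1.trans ((hB _).1 hy v hv)
  have B1 : ∀ {y v}, B y → b ≤ v → p ≤ v → y ≤ v := fun hy h1 h2 =>
    let ⟨k, hk, h3, h4⟩ := h.u1 bp h2 h1
    ((hB _).1 hy k (v1 ⟨hk, h3⟩)).trans h4
  have B2 : ∀ {y y'}, B y → p ≤ y → q ≤ y → B y' → y' ≤ y := fun hy h1 h2 hy' =>
    (hB _).1 hy' _ (v4 _ ⟨h1, h2⟩ fun c hc => .inl ((hB _).1 hy c hc))
  have nb : ∀ {y}, B y → ¬ b ≤ y := fun hy h1 =>
    let ⟨k, hk, h3⟩ := bp.zero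
    h.nge hk (h1.trans ((hB _).1 hy k (v1 ⟨hk, h3⟩)))
  have na : ∀ {y}, B y → ¬ a ≤ y := fun hy h1 =>
    let ⟨k, hk, h3⟩ := bp.zero
    h.nge hk (hu k (h1.trans ((hB _).1 hy k (v1 ⟨hk, h3⟩))) (.inr (.inl h3))).1
  have R3 : ∀ {y y'}, D K y a → D K y b → y' ∈ K y → B y' → ¬ y' ≤ a → ¬ y' ≤ b →
      p ≤ y ∨ q ≤ y → U K y' y ∧ D K y' a ∧ D K y' b := by
    intro y y' da db hk hy h1 h2 h3
    have ea := h.dich h1 (na hy)
    have eb := h.dich h2 (nb hy)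
    have e1 : U K y' y := (h.dich (h.nle hk) (h.nge hk)).resolve_right fun e => by
      obtain ⟨v, hv, h4, h5⟩ := h.u2 (ea.resolve_right (h.fd da hk h1 e))
        (eb.resolve_right (h.fd db hk h2 e))
      exact h.nge hv (B1 hy h5 (hu v h4 (.inl h5)).2)
    refine ⟨e1, ea.resolve_left fun e => ?_, eb.resolve_left fun e => ?_⟩
    · obtain ⟨v, hv, h4, h5⟩ := h.u2 e e1
      have := hu v h4 (.inr (h3.imp (fun h6 => h6.trans h5) fun h6 => h6.trans h5))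
      exact h.nge hv (B1 hy this.1 this.2)
    · obtain ⟨v, hv, h4, h5⟩ := h.u2 e e1
      exact h.nge hv (B1 hy h4 (h3.elim (fun h6 => h6.trans h5) fun h6 => hu' v h4 (h6.trans h5)))
  have st : ∀ {y y'}, U K y' y → B y → B y' → ∃ t ∈ K y', y ≤ t ∧ B t := fun e hy hy' =>
    let ⟨t, ht, h1, h2⟩ := h.u3 e v3 ((hB _).1 hy) ((hB _).1 hy')
    ⟨t, ht, h1, (hB _).2 h2⟩
  have R4 : ∀ {y W}, D K y a → D K y b → Ch W → (∀ c ∈ W, c ≤ a ∧ c ≤ b ∧ c ≤ y) →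
      ∃ w ∈ K y, w ≤ a ∧ w ≤ b ∧ ∀ c ∈ W, c ≤ w := by
    intro y W da db hW h1
    obtain ⟨s, hs, s1, s2⟩ := h.d3 da hW (fun c hc => (h1 c hc).1) fun c hc => (h1 c hc).2.2
    obtain ⟨t, ht, t1, t2⟩ := h.d3 db hW (fun c hc => (h1 c hc).2.1) fun c hc => (h1 c hc).2.2
    rcases h.ch hs ht with e | e
    exacts [⟨s, hs, s1, e.trans t1, s2⟩, ⟨t, ht, e.trans s1, t1, t2⟩]
  have Bp : B p := (hB _).2 fun v hv => (v2 hv).1
  have Bq : B q := (hB _).2 fun v hv => (v2 hv).2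
  obtain ⟨z2, k2, q2, b2⟩ := st upq Bq Bp
  have a2 : ¬ z2 ≤ a := fun e => qa (q2.trans e)
  obtain ⟨u2, da2, db2⟩ := R3 dpa dpb k2 b2 a2 (fun e => qb (q2.trans e)) (.inl le_rfl)
  obtain ⟨z3, k3, p3, b3⟩ := st u2 Bp b2
  obtain ⟨u3, da3, db3⟩ := R3 da2 db2 k3 b3 (fun e => pa (p3.trans e)) (fun e => pb (p3.trans e))
    (.inr q2)
  obtain ⟨z4, k4, l4, b4⟩ := st u3 b2 b3
  obtain ⟨u4, da4, -⟩ := R3 da3 db3 k4 b4 (fun e => a2 (l4.trans e))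
    (fun e => qb (q2.trans (l4.trans e))) (.inl p3)
  obtain ⟨z5, k5, l5, b5⟩ := st u4 b3 b4
  have p4 : ¬ p ≤ z4 := fun e => h.nge k4 (B2 b4 e (q2.trans l4) b3)
  have q5 : ¬ q ≤ z5 := fun e => h.nge k5 (B2 b5 (p3.trans l5) e b4)
  obtain ⟨w2, j2, wa2, wb2, m2⟩ := R4 (W := {k ∈ K p | k ≤ a}) da2 db2
    (fun k hk k' hk' => h.ch hk.1 hk'.1) fun c hc => ⟨hc.2, hp c hc.1 hc.2,
      (h.ch hc.1 k2).resolve_right fun e => a2 (e.trans hc.2)⟩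
  have w23 : w2 ≤ z3 := (h.ch j2 k3).resolve_right fun e => pa (p3.trans (e.trans wa2))
  obtain ⟨w, j3, wa, -, m3⟩ := R4 da3 db3 (ch1 w2) (by rintro _ rfl; exact ⟨wa2, wb2, w23⟩)
  have ww : w2 ≤ w := m3 w2 rfl
  have w4 : w ≤ z4 := (h.ch j3 k4).resolve_right fun e => a2 (l4.trans (e.trans wa))
  have w5 : w ≤ z5 := h.lb da4 k5 (fun e => pa (p3.trans (l5.trans e))) w4 wa
  have L1 : ∀ {r}, r ≤ p → r ≤ a ∨ r ≤ b → r ≤ w2 ∧ r ≤ z2 := fun {r} h1 h2 =>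
    have h3 : r ≤ a := h2.elim id (hd' r h1)
    let ⟨k, hk, h4, h5⟩ := h.d1 dpa h3 h1
    ⟨h5.trans (m2 k ⟨hk, h4⟩), h.lb dpa k2 a2 h1 h3⟩
  have L2 : ∀ {r}, r ∈ K w → r ≤ q → ¬ (r ≤ a ∨ r ≤ b ∨ r ≤ p) := fun hr h1 h2 =>
    h.nle hr ((L1 (hd _ h1 h2).1 (.inl (hd _ h1 h2).2)).1.trans ww)
  have n2 : ¬ w2 ≤ p := fun e => h.nle j2 (L1 e (.inl wa2)).2
  have e2 := h.dich (fun e => h.nle j2 (ww.trans e)) fun e => a2 (e.trans wa)
  have e3 := h.dich (h.nle j3) (h.nge j3)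
  rcases e2 with e2 | e2
  · have e3 : D K w z3 := e3.resolve_left fun e => by
      obtain ⟨v, hv, h1, h2⟩ := h.u2 e2 e
      exact h.nge hv (h.ub u3 j3 (fun e => a2 (e.trans wa)) h2 h1)
    obtain ⟨k', hk', h1, h2⟩ := h.u1 e2 l4 w4
    obtain ⟨r, hr, h3, h4⟩ := e3.two p3
    obtain ⟨k, hk, h5, h6⟩ := h.d1 e3 w23 ww
    have rk' : r ≤ k' := (h.ch hr hk').resolve_right fun e => h.nge k3 (h1.trans (e.trans h3))
    have rp : r ≤ p := h4.resolve_left fun e => p4 (e.trans (rk'.trans h2))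
    have kk' : k ≤ k' := (h.ch hk hk').resolve_right fun e => h.nge k3 (h1.trans (e.trans h5))
    have rk : r ≤ k := (h.ch hr hk).resolve_right fun e => n2 (h6.trans (e.trans rp))
    obtain ⟨s, hs, s1, s2⟩ := h.cut3 rk kk' (fun e => h.nle j2 (h6.trans e))
      fun e => h.nge k3 (e.trans h5)
    have s4 : s ≤ z4 := (s2.resolve_right fun e => h.nge hs (h1.trans e)).trans h2
    have s5 : s ≤ a ∨ s ≤ b := by
      by_contra e
      rw [not_or] at e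
      have ws : w2 ≤ s := (h.ch j2 hs).resolve_right fun e' => e.1 (e'.trans wa2)
      have ps : ¬ p ≤ s := fun e' => p4 (e'.trans s4)
      obtain ⟨f1, f2, -⟩ := R3 da2 db2 hs (B0 b4 s4) e.1 e.2 (.inr q2)
      obtain ⟨t, ht, t1, t2⟩ := h.d2 ((h.dich (fun e' => n2 (ws.trans e')) ps).resolve_left
        (h.fu u2 hs ps f1)) f2
      exact h.nle ht ((L1 t1 (.inl t2)).1.trans ws)
    rcases s1 with s1 | s1
    · exact h.nle hs (L1 (s1.trans rp) s5).2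
    · exact h.nle hr ((L1 rp (s5.imp s1.trans s1.trans)).1.trans ww)
  · obtain ⟨r, hr, h1, h2⟩ := e2.two q2
    obtain ⟨rq, r', hr', h3, h4⟩ : r ≤ q ∧ ∃ r' ∈ K w, r' ≤ z5 ∧ (p ≤ r' ∨ r' ≤ p) := by
      rcases e3 with e3 | e3
      · obtain ⟨k, hk, h5, h6⟩ := h.u1 e3 l5 w5
        refine ⟨h2.resolve_left fun e => q5 (e.trans (le_trans ?_ h6)), k, hk, h6,
          .inl (p3.trans h5)⟩
        exact (h.ch hr hk).resolve_right fun e => h.nle k3 (h5.trans (e.trans h1))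
      · obtain ⟨k, hk, h5, h6⟩ := h.d1 e3 w23 ww
        obtain ⟨r', hr', h7, h8⟩ := e3.two p3
        refine ⟨h2.resolve_left fun e => q5 (e.trans (le_trans ?_ (h5.trans l5))), r', hr',
          h7.trans l5, h8⟩
        exact (h.ch hr hk).resolve_right fun e => h.nle j2 (h6.trans (e.trans h1))
    have rp : ¬ r ≤ p := fun e => L2 hr rq (.inr (.inr e))
    have pr' : p ≤ r' := h4.resolve_right fun e => by
      rcases h.ch hr hr' with e' | e'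
      exacts [rp (e'.trans e), L2 hr' (e'.trans rq) (.inr (.inr e))]
    have rr : r ≤ r' := (h.ch hr hr').resolve_right fun e => pq (pr'.trans (e.trans rq))
    obtain ⟨s, hs, s1, s2⟩ := h.cut3 le_rfl rr rp fun e => pq (e.trans rq)
    have s4 : s ≤ z5 := (s2.resolve_right fun e => h.nge hs (pr'.trans e)).trans h3
    have s5 : s ≤ a ∨ s ≤ b := by
      by_contra e
      rw [not_or] at e
      obtain ⟨w1, j1, wa1⟩ := dpa.zero
      have ws : w1 ≤ s := (h.ch j1 hs).resolve_right fun e' => e.1 (e'.trans wa1)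
      have qs : ¬ q ≤ s := fun e' => q5 (e'.trans s4)
      obtain ⟨f1, f2, -⟩ := R3 dpa dpb hs (B0 b5 s4) e.1 e.2 (.inl le_rfl)
      obtain ⟨t, ht, t1, t2⟩ := h.d2 ((h.dich (fun e' => h.nle j1
        (hd _ (ws.trans e') (.inl wa1)).1) qs).resolve_left (h.fu upq hs qs f1)) f2
      exact h.nle ht (h.lb dpa hs e.1 (hd _ t1 (.inl t2)).1 t2)
    rcases s1 with s1 | s1
    · exact h.nle hs (hd _ (s1.trans rq) (s5.imp_right .inl)).1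
    · exact L2 hr rq ((s5.imp s1.trans s1.trans).imp_right .inl)

end Pool.Agent.P.MP_79bc23_co
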