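import Mathlib

/-! The finite Ramsey theorem for increasing lists. -/

namespace Pool.Agent.P.MP_79bc23_co

theorem ramsey (κ : Type) [Fintype κ] (r n : ℕ) : ∃ N : ℕ, ∀ (α : Type) [LinearOrder α]
    (S : Finset α), N ≤ S.card → ∀ c : List α → κ, ∃ T ⊆ S, T.card = n ∧ ∃ k, ∀ l : List α,
      l.length = r → l.Pairwise (· < ·) → (∀ x ∈ l, x ∈ T) → c l = k := by
  classical
  induction r generalizing n with
  | zero =>
    refine ⟨n, fun α _ S hS c => ?_⟩
    obtain ⟨T, h1, h2⟩ := Finset.exists_subset_card_eq hS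
    exact ⟨T, h1, h2, c [], fun l hl _ _ => by rw [List.length_eq_zero_iff.1 hl]⟩
  | succ r ih =>
    have key : ∀ m : ℕ, ∃ N : ℕ, ∀ (α : Type) [LinearOrder α] (S : Finset α), N ≤ S.card →
        ∀ c : List α → κ, ∃ T ⊆ S, T.card = m ∧ ∃ f : α → κ, ∀ (x : α) (l : List α),
          l.length = r → (x :: l).Pairwise (· < ·) → x ∈ T → (∀ y ∈ l, y ∈ T) →
            c (x :: l) = f x := by
      intro m
      induction m with
      | zero => exact ⟨0, fun α _ S _ c => ⟨∅, by simp, rfl, fun _ => c [], by simp⟩⟩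
      | succ m ihm =>
        obtain ⟨N1, h1⟩ := ihm
        obtain ⟨N2, h2⟩ := ih N1
        refine ⟨N2 + 1, fun α _ S hS c => ?_⟩
        have hne : S.Nonempty := Finset.card_pos.1 (by omega)
        have h0 := S.min'_mem hne
        obtain ⟨T1, t1, t2, k, t3⟩ := h2 α (S.erase (S.min' hne))
          (by rw [Finset.card_erase_of_mem h0]; omega) fun l => c (S.min' hne :: l)
        obtain ⟨T2, u1, u2, f, u3⟩ := h1 α T1 t2.ge c
        have hs : ∀ y ∈ T2, y ∈ S ∧ y ≠ S.min' hne := fun y hy =>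
          (Finset.mem_erase.1 (t1 (u1 hy))).symm
        refine ⟨insert (S.min' hne) T2, Finset.insert_subset h0 fun y hy => (hs y hy).1, ?_,
          Function.update f (S.min' hne) k, fun x l hl hp hx hy => ?_⟩
        · rw [Finset.card_insert_of_notMem fun e => (hs _ e).2 rfl, u2]
        have hx' : S.min' hne ≤ x := S.min'_le _
          ((Finset.mem_insert.1 hx).elim (fun e => e ▸ h0) fun e => (hs x e).1)
        have hl' : ∀ y ∈ l, y ∈ T2 := fun y e => (Finset.mem_insert.1 (hy y e)).resolve_left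
          (hx'.trans_lt (List.rel_of_pairwise_cons hp e)).ne'
        rcases Finset.mem_insert.1 hx with e | e
        · subst e
          rw [Function.update_self]
          exact t3 l hl hp.of_cons fun y e => u1 (hl' y e)
        · rw [Function.update_of_ne (hs x e).2]
          exact u3 x l hl hp e hl'
    obtain ⟨N, hN⟩ := key (Fintype.card κ * n)
    refine ⟨N, fun α _ S hS c => ?_⟩
    obtain ⟨T, h1, h2, f, h3⟩ := hN α S hS c
    obtain ⟨k, -, hk⟩ := Finset.exists_le_card_fiber_of_mul_le_card_of_maps_to (s := T)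
      (t := Finset.univ) (f := f) (n := n) (fun _ _ => Finset.mem_univ _) ⟨c [], Finset.mem_univ _⟩
      h2.ge
    obtain ⟨T', h4, h5⟩ := Finset.exists_subset_card_eq hk
    have h6 : ∀ y ∈ T', y ∈ T ∧ f y = k := fun y hy => Finset.mem_filter.1 (h4 hy)
    refine ⟨T', fun y hy => h1 (h6 y hy).1, h5, k, fun l hl hp hm => ?_⟩
    obtain _ | ⟨x, l⟩ := l
    · simp at hl
    rw [h3 x l (by simpa using hl) hp (h6 x (hm x (by simp))).1
      fun y hy => (h6 y (hm y (by simp [hy]))).1, (h6 x (hm x (by simp))).2]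

theorem ramsey3 (κ : Type) [Fintype κ] [Inhabited κ] (n : ℕ) : ∃ N : ℕ,
    ∀ c : Fin N → Fin N → Fin N → κ, ∃ (e : Fin n ↪o Fin N) (k : κ),
      ∀ i j l, i < j → j < l → c (e i) (e j) (e l) = k := by
  obtain ⟨N, hN⟩ := ramsey κ 3 n
  refine ⟨N, fun c => ?_⟩
  obtain ⟨T, -, h1, k, h2⟩ := hN (Fin N) Finset.univ (by simp) fun l =>
    match l with
    | [i, j, l] => c i j l
    | _ => default
  refine ⟨T.orderEmbOfFin h1, k, fun i j l hij hjl => h2 [_, _, _] rfl ?_ (by simp)⟩
  simp [hij, hjl, hij.trans hjl]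

theorem ramsey2 (κ : Type) [Fintype κ] [Inhabited κ] (n : ℕ) : ∃ N : ℕ,
    ∀ c : Fin N → Fin N → κ, ∃ (e : Fin n ↪o Fin N) (k : κ),
      ∀ i j, i < j → c (e i) (e j) = k := by
  obtain ⟨N, hN⟩ := ramsey κ 2 n
  refine ⟨N, fun c => ?_⟩
  obtain ⟨T, -, h1, k, h2⟩ := hN (Fin N) Finset.univ (by simp) fun l =>
    match l with
    | [i, j] => c i j
    | _ => default
  refine ⟨T.orderEmbOfFin h1, k, fun i j hij => h2 [_, _] rfl ?_ (by simp)⟩
  simp [hij]

end Pool.Agent.P.MP_79bc23_co
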