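import Pool.Agent.P.MP_79bc23_co.Helix
import Pool.Agent.P.MP_79bc23_co.Ramsey

/-! Homogeneous transitive tournaments do not occur, hence antichains are bounded. -/

namespace Pool.Agent.P.MP_79bc23_co

universe u

variable {P : Type u} [PartialOrder P] {K : P → Set P}

/-- An antichain on which `U` points forward and `D` points backward. -/
def Tour {n : ℕ} (K : P → Set P) (a : Fin n → P) : Prop :=
  ∀ i j, i < j → ¬ a i ≤ a j ∧ ¬ a j ≤ a i ∧ U K (a i) (a j) ∧ D K (a j) (a i)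

/-- Some element of `K x` lies above `y` and not above `z`. -/
def Al (K : P → Set P) (x y z : P) : Prop := ∃ k ∈ K x, y ≤ k ∧ ¬ z ≤ k

/-- Some element of `K x` lies below `y` and not below `z`. -/
def Be (K : P → Set P) (x y z : P) : Prop := Al (P := Pᵒᵈ) K x y z

lemma Tour.dual {n : ℕ} {a : Fin n → P} (t : Tour K a) :
    Tour (P := Pᵒᵈ) K fun i => a i.rev := fun i j hij =>
  let ⟨h1, h2, h3, h4⟩ := t j.rev i.rev (Fin.rev_lt_rev.2 hij)
  ⟨h1, h2, h4, h3⟩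

namespace Sys

variable (h : Sys K) {x y z v : P}
include h

lemma up (hu : U K x y) (hn : ¬ Al K x y z) (h1 : x ≤ v) (h2 : y ≤ v) : z ≤ v :=
  let ⟨k, hk, h3, h4⟩ := h.u1 hu h2 h1
  (not_not.1 fun e => hn ⟨k, hk, h3, e⟩).trans h4

lemma dn (hu : D K x y) (hn : ¬ Be K x y z) (h1 : v ≤ x) (h2 : v ≤ y) : v ≤ z :=
  h.dual.up hu hn h1 h2

lemma anti (h1 : Al K x y z) : ¬ Al K x z y := by
  rintro ⟨k, hk, h2, h3⟩
  obtain ⟨k', hk', h4, h5⟩ := h1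
  rcases h.ch hk hk' with e | e
  exacts [h5 (h2.trans e), h3 (h4.trans e)]

theorem caseB {a : Fin 7 → P} (t : Tour K a)
    (hb : ∀ i j l, i < j → j < l → Al K (a i) (a l) (a j))
    (hs : ¬ Be K (a 4) (a 0) (a 3) ∧ ¬ Be K (a 4) (a 1) (a 3) ∨
      ¬ Be K (a 5) (a 4) (a 3) ∧ ¬ Be K (a 5) (a 4) (a 0)) : False := by
  have up : ∀ i j l, i < j → j < l → ∀ v, a i ≤ v → a j ≤ v → a l ≤ v := fun i j l h1 h2 v =>
    h.up (t i j h1).2.2.1 (h.anti (hb i j l h1 h2))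
  obtain ⟨x, hx, x6, x5⟩ := hb 3 5 6 (by decide) (by decide)
  have x4 : ¬ a 4 ≤ x := fun e => h.anti (hb 3 4 5 (by decide) (by decide)) ⟨x, hx, e, x5⟩
  have nx : ∀ i, i < 6 → ¬ x ≤ a i := fun i hi e => (t i 6 hi).2.1 (x6.trans e)
  have u3 : ∀ l, 3 < l → ¬ a l ≤ x → U K x (a 3) → ¬ U K x (a l) := fun l hl h1 =>
    h.fu (t 3 l hl).2.2.1 hx h1
  have uu : ∀ i j, i < j → j < 3 → U K x (a i) → ¬ U K x (a j) := fun i j h1 h2 e e' =>
    let ⟨v, hv, h3, h4⟩ := h.u2 e e'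
    h.nge hv (h.ub (t 3 4 (by decide)).2.2.1 hx x4 (up i j 3 h1 h2 v h3 h4)
      (up i j 4 h1 (h2.trans (by decide)) v h3 h4))
  have e3 : U K x (a 3) := (h.dich (h.nle hx) (h.nge hx)).resolve_right fun e => by
    have h1 : ∀ i, i < 3 → a i ≤ x ∨ U K x (a i) := fun i hi => or_iff_not_imp_left.2 fun h2 =>
      (h.dich (nx i (hi.trans (by decide))) h2).resolve_right
        (h.fd (t i 3 hi).2.2.2 hx (nx i (hi.trans (by decide))) e)
    have h2 : ∀ i j, i < j → j < 3 → a i ≤ x → ¬ a j ≤ x := fun i j h3 h4 h5 h6 =>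
      h.nge hx (up i j 3 h3 h4 x h5 h6)
    rcases h1 0 (by decide) with e0 | e0 <;> rcases h1 1 (by decide) with e1 | e1 <;>
      rcases h1 2 (by decide) with e2 | e2
    exacts [h2 0 1 (by decide) (by decide) e0 e1, h2 0 1 (by decide) (by decide) e0 e1,
      h2 0 2 (by decide) (by decide) e0 e2, uu 1 2 (by decide) (by decide) e1 e2,
      h2 1 2 (by decide) (by decide) e1 e2, uu 0 2 (by decide) (by decide) e0 e2,
      uu 0 1 (by decide) (by decide) e0 e1, uu 0 1 (by decide) (by decide) e0 e1]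
  have d4 := (h.dich (nx 4 (by decide)) x4).resolve_left (u3 4 (by decide) x4 e3)
  have d5 := (h.dich (nx 5 (by decide)) x5).resolve_left (u3 5 (by decide) x5 e3)
  have fin : ∀ i, i < 3 → ∀ z ∈ K x, z ≤ a 3 → ¬ z ≤ a i := fun i hi z hz h1 h2 =>
    h.nle hz (h.lb (t i 3 hi).2.2.2 hx (nx i (hi.trans (by decide))) h1 h2)
  rcases hs with hs | hs
  · have h1 : ∀ i, i < 3 → ¬ Be K (a 4) (a i) (a 3) → a i ≤ x := fun i hi hn => not_not.1 fun e => by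
      have h2 : D K x (a i) := (h.dich (nx i (hi.trans (by decide))) e).resolve_left fun e' =>
        let ⟨v, hv, h3, h4⟩ := h.u2 e' e3
        h.nge hv (h.ub (t 3 4 (by decide)).2.2.1 hx x4 h4 (up i 3 4 hi (by decide) v h3 h4))
      obtain ⟨z, hz, h3, h4⟩ := h.d2 d4 h2
      exact fin i hi z hz (h.dn (t i 4 (hi.trans (by decide))).2.2.2 hn h3 h4) h4
    exact h.nge hx (up 0 1 3 (by decide) (by decide) x (h1 0 (by decide) hs.1)
      (h1 1 (by decide) hs.2))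
  · obtain ⟨z, hz, h3, h4⟩ := h.d2 d5 d4
    exact fin 0 (by decide) z hz (h.dn (t 4 5 (by decide)).2.2.2 hs.1 h3 h4)
      (h.dn (t 4 5 (by decide)).2.2.2 hs.2 h3 h4)

theorem caseA {a : Fin 7 → P} (t : Tour K a) (ha : Al K (a 0) (a 2) (a 3))
    (hb : ∀ i j l, i < j → j < l → ¬ Al K (a i) (a l) (a j)) (hs : ¬ Be K (a 3) (a 0) (a 2)) :
    False := by
  have up : ∀ i j l, i < j → j < l → ∀ v, a i ≤ v → a l ≤ v → a j ≤ v := fun i j l h1 h2 v =>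
    h.up (t i l (h1.trans h2)).2.2.1 (hb i j l h1 h2)
  have dn : ∀ v, v ≤ a 0 → v ≤ a 3 → v ≤ a 2 := fun v h1 h2 =>
    h.dn (t 0 3 (by decide)).2.2.2 hs h2 h1
  obtain ⟨u, hu, u2, u0⟩ := h.u3 (t 1 2 (by decide)).2.2.1 (C := {k ∈ K (a 0) | a 2 ≤ k})
    (fun k hk k' hk' => h.ch hk.1 hk'.1) (fun _ hk => hk.2) fun k hk =>
      not_not.1 fun e => hb 0 1 2 (by decide) (by decide) ⟨k, hk.1, hk.2, e⟩
  have n3 : ¬ a 3 ≤ u := fun e =>
    let ⟨k, hk, h1, h2⟩ := ha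
    h2 (e.trans (u0 k ⟨hk, h1⟩))
  have n0 : ¬ a 0 ≤ u := fun e => h.nge hu (up 0 1 2 (by decide) (by decide) u e u2)
  have m0 : ¬ u ≤ a 0 := fun e => (t 0 2 (by decide)).2.1 (u2.trans e)
  have m3 : ¬ u ≤ a 3 := fun e => (t 2 3 (by decide)).1 (u2.trans e)
  have d3 : D K u (a 3) := (h.dich m3 n3).resolve_left fun e => by
    refine h.fd (t 0 1 (by decide)).2.2.2 hu m0 ((h.dich (h.nle hu) (h.nge hu)).resolve_left
      fun e' => h.fu (t 1 3 (by decide)).2.2.1 hu n3 e' e) ((h.dich m0 n0).resolve_left fun e' => ?_)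
    obtain ⟨v, hv, h1, h2⟩ := h.u2 e' e
    exact h.nge hv (h.ub (t 1 3 (by decide)).2.2.1 hu n3
      (up 0 1 3 (by decide) (by decide) v h1 h2) h2)
  have e0 : U K u (a 0) := (h.dich m0 n0).resolve_right fun e =>
    let ⟨z, hz, h1, h2⟩ := h.d2 e d3
    h.nle hz ((dn z h1 h2).trans u2)
  obtain ⟨w, hw, w0⟩ := e0.zero
  obtain ⟨z, hz, z3⟩ := d3.zero
  refine h.nest (t 0 3 (by decide)).1 (t 0 2 (by decide)).2.2.2 (t 2 3 (by decide)).2.2.1
    (t 2 3 (by decide)).1 (up 0 2 3 (by decide) (by decide)) dn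
    ((h.ch hz hw).resolve_right fun e => (t 0 3 (by decide)).1 (w0.trans (e.trans z3))) z3 w0
    (fun e => h.nle hz (e.trans u2)) fun e => ?_
  obtain ⟨k, hk, h1, h2⟩ := h.u1 (t 0 2 (by decide)).2.2.1 e w0
  exact h.nge hw ((u0 k ⟨hk, h1⟩).trans h2)

theorem caseC {a : Fin 7 → P} (t : Tour K a)
    (ha : ∀ i j l, i < j → j < l → ¬ Al K (a i) (a j) (a l))
    (hb : ∀ i j l, i < j → j < l → ¬ Al K (a i) (a l) (a j))
    (hc : ∀ i j l, i < j → j < l → ¬ Be K (a l) (a j) (a i))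
    (hd : ∀ i j l, i < j → j < l → ¬ Be K (a l) (a i) (a j)) : False := by
  have u1 : ∀ i j l, i < j → j < l → ∀ v, a i ≤ v → a j ≤ v → a l ≤ v := fun i j l h1 h2 v =>
    h.up (t i j h1).2.2.1 (ha i j l h1 h2)
  have u2 : ∀ i j l, i < j → j < l → ∀ v, a i ≤ v → a l ≤ v → a j ≤ v := fun i j l h1 h2 v =>
    h.up (t i l (h1.trans h2)).2.2.1 (hb i j l h1 h2)
  have d1 : ∀ i j l, i < j → j < l → ∀ v, v ≤ a l → v ≤ a j → v ≤ a i := fun i j l h1 h2 v =>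
    h.dn (t j l h2).2.2.2 (hc i j l h1 h2)
  have d2 : ∀ i j l, i < j → j < l → ∀ v, v ≤ a l → v ≤ a i → v ≤ a j := fun i j l h1 h2 v =>
    h.dn (t i l (h1.trans h2)).2.2.2 (hd i j l h1 h2)
  refine h.helix (a := a 0) (b := a 1) (p := a 2) (q := a 3) (t 2 3 (by decide)).1
    (t 0 2 (by decide)).2.1 (t 1 2 (by decide)).2.1 (t 0 3 (by decide)).2.1
    (t 1 3 (by decide)).2.1 (t 1 2 (by decide)).2.2.1 (t 2 3 (by decide)).2.2.1
    (t 0 2 (by decide)).2.2.2 (t 1 2 (by decide)).2.2.2 ?_ (u2 1 2 3 (by decide) (by decide))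
    (fun k hk e => not_not.1 fun e' => ha 1 2 3 (by decide) (by decide) ⟨k, hk, e, e'⟩) ?_
    (d1 0 1 2 (by decide) (by decide))
    fun k hk e => not_not.1 fun e' => hd 0 1 2 (by decide) (by decide) ⟨k, hk, e, e'⟩
  · rintro v h0 (e | e | e)
    exacts [⟨e, u1 0 1 2 (by decide) (by decide) v h0 e⟩,
      ⟨u2 0 1 2 (by decide) (by decide) v h0 e, e⟩,
      ⟨u2 0 1 3 (by decide) (by decide) v h0 e, u2 0 2 3 (by decide) (by decide) v h0 e⟩]
  · rintro v h0 (e | e | e)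
    exacts [⟨d2 0 2 3 (by decide) (by decide) v h0 e, e⟩,
      ⟨d2 1 2 3 (by decide) (by decide) v h0 e, d1 0 1 3 (by decide) (by decide) v h0 e⟩,
      ⟨e, d1 0 2 3 (by decide) (by decide) v h0 e⟩]

theorem hom {a : Fin 7 → P} (t : Tour K a) {k1 k2 k3 k4 : Prop}
    (e : ∀ i j l, i < j → j < l → (Al K (a i) (a j) (a l), Al K (a i) (a l) (a j),
      Be K (a l) (a j) (a i), Be K (a l) (a i) (a j)) = (k1, k2, k3, k4)) : False := by
  simp only [Prod.mk.injEq, eq_iff_iff] at e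
  have r : ∀ {i j : Fin 7}, i < j → j.rev < i.rev := Fin.rev_lt_rev.2
  by_cases h2 : k2
  · refine h.caseB t (fun i j l h1 h3 => (e i j l h1 h3).2.1.2 h2) ?_
    by_cases h4 : k4
    · exact .inr ⟨h.dual.anti ((e 3 4 5 (by decide) (by decide)).2.2.2.2 h4),
        h.dual.anti ((e 0 4 5 (by decide) (by decide)).2.2.2.2 h4)⟩
    · exact .inl ⟨fun h5 => h4 ((e 0 3 4 (by decide) (by decide)).2.2.2.1 h5),
        fun h5 => h4 ((e 1 3 4 (by decide) (by decide)).2.2.2.1 h5)⟩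
  by_cases h4 : k4
  · exact h.dual.caseB t.dual (fun i j l h1 h3 => (e _ _ _ (r h3) (r h1)).2.2.2.2 h4)
      (.inl ⟨fun h5 => h2 ((e 2 3 6 (by decide) (by decide)).2.1.1 h5),
        fun h5 => h2 ((e 2 3 5 (by decide) (by decide)).2.1.1 h5)⟩)
  by_cases h1 : k1
  · exact h.caseA t ((e 0 2 3 (by decide) (by decide)).1.2 h1)
      (fun i j l h5 h6 h7 => h2 ((e i j l h5 h6).2.1.1 h7))
      fun h5 => h4 ((e 0 2 3 (by decide) (by decide)).2.2.2.1 h5)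
  by_cases h3 : k3
  · exact h.dual.caseA t.dual ((e 3 4 6 (by decide) (by decide)).2.2.1.2 h3)
      (fun i j l h5 h6 h7 => h4 ((e _ _ _ (r h6) (r h5)).2.2.2.1 h7))
      fun h5 => h2 ((e 3 4 6 (by decide) (by decide)).2.1.1 h5)
  exact h.caseC t (fun i j l h5 h6 h7 => h1 ((e i j l h5 h6).1.1 h7))
    (fun i j l h5 h6 h7 => h2 ((e i j l h5 h6).2.1.1 h7))
    (fun i j l h5 h6 h7 => h3 ((e i j l h5 h6).2.2.1.1 h7))
    fun i j l h5 h6 h7 => h4 ((e i j l h5 h6).2.2.2.1 h7)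

end Sys

theorem tour : ∃ N : ℕ, ∀ (P : Type u) [PartialOrder P] (K : P → Set P), Sys K →
    ∀ a : Fin N → P, ¬ Tour K a := by
  obtain ⟨N, hN⟩ := ramsey3 (Prop × Prop × Prop × Prop) 7
  refine ⟨N, fun P _ K h a t => ?_⟩
  obtain ⟨e, ⟨k1, k2, k3, k4⟩, he⟩ := hN fun i j l => (Al K (a i) (a j) (a l),
    Al K (a i) (a l) (a j), Be K (a l) (a j) (a i), Be K (a l) (a i) (a j))
  exact h.hom (a := fun i => a (e i)) (fun i j hij => t _ _ (e.strictMono hij)) he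

theorem bound : ∃ N : ℕ, ∀ (P : Type u) [PartialOrder P] (K : P → Set P), Sys K →
    ∀ a : Fin N → P, (∀ i j, i ≠ j → ¬ a i ≤ a j) → False := by
  obtain ⟨n, hn⟩ := tour.{u}
  obtain ⟨N, hN⟩ := ramsey2 (Prop × Prop) (n + 3)
  refine ⟨N, fun P _ K h a ha => ?_⟩
  obtain ⟨e, ⟨k1, k2⟩, he⟩ := hN fun i j => (U K (a i) (a j), U K (a j) (a i))
  simp only [Prod.mk.injEq, eq_iff_iff] at he
  have n1 : ∀ {i j}, i < j → ¬ a (e i) ≤ a (e j) := fun h1 => ha _ _ (e.strictMono h1).ne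
  have n2 : ∀ {i j}, i < j → ¬ a (e j) ≤ a (e i) := fun h1 => ha _ _ (e.strictMono h1).ne'
  have d1 : ¬ k1 → ∀ {i j}, i < j → D K (a (e i)) (a (e j)) := fun h0 _ _ h1 =>
    (h.dich (n1 h1) (n2 h1)).resolve_left fun h2 => h0 ((he _ _ h1).1.1 h2)
  have d2 : ¬ k2 → ∀ {i j}, i < j → D K (a (e j)) (a (e i)) := fun h0 _ _ h1 =>
    (h.dich (n2 h1) (n1 h1)).resolve_left fun h2 => h0 ((he _ _ h1).2.1 h2)
  have c : ∀ {i j : Fin n}, i < j → i.castAdd 3 < j.castAdd 3 := id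
  have l01 : (⟨0, by omega⟩ : Fin (n + 3)) < ⟨1, by omega⟩ := Nat.zero_lt_one
  have l12 : (⟨1, by omega⟩ : Fin (n + 3)) < ⟨2, by omega⟩ := Nat.one_lt_two
  have l02 := l01.trans l12
  by_cases h1 : k1 <;> by_cases h2 : k2
  · exact h.tri ((he _ _ l01).1.2 h1) ((he _ _ l02).1.2 h1) ((he _ _ l01).2.2 h2)
      ((he _ _ l12).1.2 h1) ((he _ _ l02).2.2 h2) ((he _ _ l12).2.2 h2)
  · exact hn P K h (fun i => a (e (i.castAdd 3))) fun i j hij =>
      ⟨n1 (c hij), n2 (c hij), (he _ _ (c hij)).1.2 h1, d2 h2 (c hij)⟩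
  · exact hn Pᵒᵈ K h.dual (fun i => a (e (i.castAdd 3))) fun i j hij =>
      ⟨n2 (c hij), n1 (c hij), d1 h1 (c hij), (he _ _ (c hij)).2.2 h2⟩
  · exact h.dual.tri (d1 h1 l01) (d1 h1 l02) (d2 h2 l01) (d1 h1 l12) (d2 h2 l02) (d2 h2 l12)

end Pool.Agent.P.MP_79bc23_co
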